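import Pool.Agent.Helper506.MeansOfUnivalent

set_option autoImplicit false

/-! Geometric means of two univalent functions can have infinite valence for every weight. -/

open Complex Metric Set Pool.Agent.Helper506.Means

namespace Pool.Agent.H109Z.GeomMean

/-- Every function of class `S` has an analytic branch of `log (f z / z)` vanishing at `0`. -/
theorem exists_branch {f : ℂ → ℂ} (hf : ClassS f) : ∃ L, IsLogBranch f L := by
  obtain ⟨hd, hinj, h0, h1⟩ := hf
  have hb : ball (0 : ℂ) 1 ∈ nhds (0 : ℂ) := ball_mem_nhds _ one_pos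
  set h : ℂ → ℂ := dslope f 0 with hh
  have hhd : DifferentiableOn ℂ h (ball 0 1) := (differentiableOn_dslope hb).mpr hd
  have hh0 : h 0 = 1 := by rw [hh, dslope_same, h1]
  have hfz : ∀ z, f z = z * h z := by
    intro z
    have := sub_smul_dslope f 0 z
    rw [h0, sub_zero, sub_zero, smul_eq_mul] at this
    exact this.symm
  have hne : ∀ z ∈ ball (0 : ℂ) 1, h z ≠ 0 := by
    intro z hz hz0
    by_cases hz' : z = 0
    · rw [hz', hh0] at hz0; exact one_ne_zero hz0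
    · apply hz'
      apply hinj hz (mem_ball_self one_pos)
      rw [hfz z, hz0, h0, mul_zero]
  have hq : DifferentiableOn ℂ (fun z => deriv h z / h z) (ball 0 1) :=
    (hhd.deriv isOpen_ball).div hhd hne
  obtain ⟨L, hL0, hL⟩ := hq.isExactOn_ball.with_val_at 0 0
  have hLd : DifferentiableOn ℂ L (ball 0 1) :=
    fun z hz => (hL z hz).differentiableAt.differentiableWithinAt
  refine ⟨L, hLd, hL0, fun z hz => ?_⟩
  have hk : ∀ w ∈ ball (0 : ℂ) 1, HasDerivAt (fun w => h w * exp (-L w)) 0 w := by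
    intro w hw
    have a1 : HasDerivAt h (deriv h w) w :=
      (hhd.differentiableAt (isOpen_ball.mem_nhds hw)).hasDerivAt
    have a2 := a1.mul ((hL w hw).neg.cexp)
    refine a2.congr_deriv ?_
    have := hne w hw
    field_simp
    simp
  have hc := isOpen_ball.is_const_of_deriv_eq_zero (convex_ball (0 : ℂ) 1).isPreconnected
    (f := fun w => h w * exp (-L w))
    (fun w hw => (hk w hw).differentiableAt.differentiableWithinAt)
    (fun w hw => (hk w hw).deriv) hz (mem_ball_self one_pos)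
  simp only [hh0, hL0, neg_zero, exp_zero, mul_one] at hc
  rw [hfz z]
  congr 1
  have h3 : exp (-L z) * exp (L z) = 1 := by rw [← exp_add]; simp
  linear_combination (exp (L z)) * hc - h z * h3

/-- A continuous function whose exponential is constant is constant on a preconnected set. -/
theorem const_of_exp {S : Set ℂ} (hS : IsPreconnected S) {φ : ℂ → ℂ} (hφ : ContinuousOn φ S)
    {K : ℂ} (hK : ∀ τ ∈ S, exp (φ τ) = K) {a b : ℂ} (ha : a ∈ S) (hb : b ∈ S) : φ a = φ b := by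
  refine isCoveringMap_exp.constOn_of_comp hS hφ (fun x hx y hy => ?_) ha hb
  apply Subtype.ext
  show exp (φ x) = exp (φ y)
  rw [hK x hx, hK y hy]

/-- The correction term in `log (1 - a) = - a * exp (eta a)`. -/
noncomputable def eta (a : ℂ) : ℂ := log (-log (1 - a) / a)

theorem one_sub_slit {a : ℂ} (h : ‖a‖ ≤ 1 / 2) : 1 - a ∈ slitPlane := by
  rw [mem_slitPlane_iff]
  left
  have := (abs_le.mp ((abs_re_le_norm a).trans h)).2
  rw [sub_re, one_re]
  linarith

theorem eta_aux {a : ℂ} (h0 : a ≠ 0) (h : ‖a‖ ≤ 1 / 2) : ‖-log (1 - a) / a - 1‖ ≤ ‖a‖ := by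
  have hn : 0 < ‖a‖ := norm_pos_iff.mpr h0
  have h1 := norm_log_one_add_sub_self_le (z := -a) (by rw [norm_neg]; linarith)
  rw [norm_neg] at h1
  have h2 : -log (1 - a) / a - 1 = -(log (1 + -a) - -a) / a := by
    rw [← sub_eq_add_neg]; field_simp; ring
  rw [h2, norm_div, norm_neg, div_le_iff₀ hn]
  refine h1.trans ?_
  have h3 : (1 - ‖a‖)⁻¹ ≤ 2 := by
    rw [inv_le_comm₀ (by linarith) (by norm_num)]; linarith
  have h4 : 0 ≤ ‖a‖ ^ 2 := by positivity
  nlinarith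

theorem eta_slit {a : ℂ} (h0 : a ≠ 0) (h : ‖a‖ ≤ 1 / 2) : -log (1 - a) / a ∈ slitPlane := by
  have h1 := eta_aux h0 h
  have := one_sub_slit (a := -(-log (1 - a) / a - 1)) (by rw [norm_neg]; linarith)
  convert this using 1
  ring

theorem norm_eta {a : ℂ} (h0 : a ≠ 0) (h : ‖a‖ ≤ 1 / 2) : ‖eta a‖ ≤ 3 / 2 * ‖a‖ := by
  have h1 := eta_aux h0 h
  have h2 := norm_log_one_add_half_le_self (z := -log (1 - a) / a - 1) (h1.trans h)
  have h3 : 1 + (-log (1 - a) / a - 1) = -log (1 - a) / a := by ring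
  rw [h3] at h2
  unfold eta
  linarith

theorem log_eq_eta {a : ℂ} (h0 : a ≠ 0) (h : ‖a‖ ≤ 1 / 2) : log (1 - a) = -a * exp (eta a) := by
  unfold eta
  rw [exp_log (slitPlane_ne_zero (eta_slit h0 h))]
  field_simp

theorem differentiableAt_eta {a : ℂ} (h0 : a ≠ 0) (h : ‖a‖ ≤ 1 / 2) :
    DifferentiableAt ℂ eta a := by
  unfold eta
  have h1 : DifferentiableAt ℂ (fun a : ℂ => log (1 - a)) a :=
    DifferentiableAt.clog (f := fun a : ℂ => 1 - a) (by fun_prop) (one_sub_slit h)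
  have h2 : DifferentiableAt ℂ (fun a : ℂ => -log (1 - a) / a) a :=
    h1.neg.div differentiableAt_id h0
  exact DifferentiableAt.clog h2 (eta_slit h0 h)

/-- The small quantity `U ^ (-c)` in logarithmic coordinates. -/
noncomputable def A (e : ℝ) (c τ : ℂ) : ℂ := exp (-c * (Real.log e + τ + del e τ))

/-- Smallness conditions at the point `τ`. -/
def Small (e : ℝ) (c : ℂ) (s : ℝ) (τ : ℂ) : Prop :=
  ‖(((1 - e) / e : ℝ) : ℂ) * exp (-τ)‖ ≤ s ∧ ‖A e c τ‖ ≤ s

theorem exists_small {e : ℝ} (h0 : 0 < e) (h1 : e ≤ 1) {c : ℂ} (hre : c.re = 1 / 2)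
    (him : |c.im| ≤ 1 / 2) {s : ℝ} (hs : 0 < s) (hs2 : s ≤ 1 / 2) :
    ∃ R : ℝ, ∀ τ : ℂ, R ≤ τ.re → |τ.im| ≤ 1 → Small e c s τ := by
  refine ⟨max ((1 - e) / e / s) (5 / 2 - Real.log e - 2 * Real.log s), fun τ hτ hi => ?_⟩
  have a1 := small_of_re h0 h1 hs ((le_max_left _ _).trans hτ)
  refine ⟨a1, ?_⟩
  have a2 : 5 / 2 - Real.log e - 2 * Real.log s ≤ τ.re := (le_max_right _ _).trans hτ
  have hd : ‖del e τ‖ ≤ 3 / 4 := by
    have := norm_log_one_add_half_le_self (a1.trans hs2)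
    unfold del
    linarith
  have d1 := abs_le.mp ((abs_re_le_norm (del e τ)).trans hd)
  have d2 := abs_le.mp ((abs_im_le_norm (del e τ)).trans hd)
  unfold A
  rw [norm_exp, ← Real.exp_log hs, Real.exp_le_exp]
  simp only [neg_mul, neg_re, mul_re, add_re, ofReal_re, add_im, ofReal_im, zero_add, hre]
  have b1 : |c.im * (τ.im + (del e τ).im)| ≤ 1 / 2 * (7 / 4) := by
    rw [abs_mul]
    apply mul_le_mul him _ (abs_nonneg _) (by norm_num)
    have := abs_le.mp hi
    rw [abs_le]; constructor <;> linarith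
  have b2 := abs_le.mp b1
  linarith

theorem Phi_eq {e : ℝ} (h0 : 0 < e) {c : ℂ} (hc : c ≠ 0) {τ : ℂ} (hi : |τ.im| ≤ 1)
    (hs : Small e c (1 / 2) τ) : Phi e (-c) (zt τ) = (4 * c * e)⁻¹ * (1 - A e c τ) := by
  have he : (e : ℂ) ≠ 0 := by exact_mod_cast h0.ne'
  unfold Phi A
  rw [log_U h0 hi hs.1]
  field_simp
  ring

theorem Small.mono {e : ℝ} {c : ℂ} {s t : ℝ} {τ : ℂ} (h : Small e c s τ) (hst : s ≤ t) :
    Small e c t τ := ⟨h.1.trans hst, h.2.trans hst⟩

theorem differentiableOn_A {e : ℝ} {c : ℂ} {S : Set ℂ} (hS : ∀ τ ∈ S, Small e c (1 / 2) τ) :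
    DifferentiableOn ℂ (A e c) S := by
  have h1 := differentiableOn_del (e := e) (S := S) (fun τ hτ => (hS τ hτ).1)
  unfold A
  apply DifferentiableOn.cexp
  apply DifferentiableOn.const_mul
  exact (DifferentiableOn.const_add _ differentiableOn_id).add h1

theorem A_ne (e : ℝ) (c τ : ℂ) : A e c τ ≠ 0 := exp_ne_zero _

theorem zt_slit {τ : ℂ} (hr : 0 < τ.re) (hi : |τ.im| ≤ 1) : zt τ ∈ slitPlane := by
  have hp := exp_half_re_pos hi
  have hn : 1 < ‖exp (τ / 2)‖ := by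
    rw [norm_exp]
    apply Real.one_lt_exp_iff.mpr
    simp only [div_ofNat_re]
    linarith
  set p := exp (τ / 2)
  have h1 := add_one_ne hp
  have h2 : 1 < normSq p := by
    rw [normSq_eq_norm_sq]; nlinarith
  rw [mem_slitPlane_iff]
  left
  unfold zt
  have hn2 : 0 < normSq (p + 1) := normSq_pos.mpr h1
  rw [div_re, ← add_div]
  apply div_pos _ hn2
  simp only [sub_re, one_re, add_re, sub_im, one_im, add_im, sub_zero, add_zero]
  rw [normSq_apply] at h2
  nlinarith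

theorem continuousOn_zt {S : Set ℂ} (hS : ∀ τ ∈ S, |τ.im| ≤ 1) : ContinuousOn zt S := by
  unfold zt
  apply ContinuousOn.div (by fun_prop) (by fun_prop)
  intro τ hτ
  exact add_one_ne (exp_half_re_pos (hS τ hτ))

/-- The half-strip. -/
def Om (R : ℝ) : Set ℂ := {τ | R ≤ τ.re ∧ |τ.im| ≤ 1}

theorem Om_convex (R : ℝ) : Convex ℝ (Om R) := by
  have h : Om R = {τ : ℂ | R ≤ τ.re} ∩ ({τ : ℂ | τ.im ≤ 1} ∩ {τ : ℂ | -1 ≤ τ.im}) := by
    ext τ
    simp only [Om, mem_ofPred_eq, mem_inter_iff, abs_le]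
    tauto
  rw [h]
  exact (convex_halfSpace_re_ge R).inter
    ((convex_halfSpace_im_le 1).inter (convex_halfSpace_im_ge (-1)))

/-- On the half-strip the branch `L` is an explicit principal logarithm up to a constant. -/
theorem branch_const {e : ℝ} (h0 : 0 < e) {c : ℂ} (hc : c ≠ 0) {L : ℂ → ℂ}
    (hL : IsLogBranch (Phi e (-c)) L) {R : ℝ} (hR : 0 < R)
    (hs : ∀ τ ∈ Om R, Small e c (1 / 2) τ) :
    ∃ K : ℂ, ∀ τ ∈ Om R, log (zt τ) + L (zt τ) = K + log (1 - A e c τ) := by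
  have hmem : ∀ τ ∈ Om R, zt τ ∈ ball (0 : ℂ) 1 := fun τ hτ => zt_mem hτ.2
  have hsl : ∀ τ ∈ Om R, zt τ ∈ slitPlane := fun τ hτ => zt_slit (lt_of_lt_of_le hR hτ.1) hτ.2
  have hz : ContinuousOn zt (Om R) := continuousOn_zt (fun τ hτ => hτ.2)
  have hcont : ContinuousOn (fun τ => log (zt τ) + L (zt τ) - log (1 - A e c τ)) (Om R) := by
    refine ((hz.clog hsl).add (hL.1.continuousOn.comp hz hmem)).sub ?_
    refine ContinuousOn.clog (continuousOn_const.sub (differentiableOn_A hs).continuousOn) ?_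
    exact fun τ hτ => one_sub_slit (hs τ hτ).2
  have hR0 : ((R : ℝ) : ℂ) ∈ Om R := by simp [Om]
  refine ⟨log (zt R) + L (zt R) - log (1 - A e c R), fun τ hτ => ?_⟩
  have := const_of_exp (Om_convex R).isPreconnected hcont (K := (4 * c * e)⁻¹) (fun σ hσ => by
    have b1 := slitPlane_ne_zero (one_sub_slit (hs σ hσ).2)
    rw [exp_sub, exp_add, exp_log (slitPlane_ne_zero (hsl σ hσ)), exp_log b1,
      ← hL.2.2 _ (hmem σ hσ), Phi_eq h0 hc hσ.2 (hs σ hσ)]
    field_simp) hτ hR0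
  linear_combination this

theorem c1_re : c1.re = 1 / 2 := by simp [c1]
theorem c2_re : c2.re = 1 / 2 := by simp [c2]
theorem c1_im : |c1.im| ≤ 1 / 2 := by
  have : c1.im = 1 / 2 := by simp [c1]
  rw [this]; norm_num [abs_of_pos]
theorem c2_im : |c2.im| ≤ 1 / 2 := by
  have : c2.im = -(1 / 2) := by simp [c2]; norm_num
  rw [this, abs_neg]; norm_num [abs_of_pos]

theorem geom_main {α β : ℝ} (hα : 0 < α) (hαβ : α ≤ β) (hsum : α + β = 1) {Lf Lg : ℂ → ℂ}
    (hf : IsLogBranch (Phi ((α / β) ^ 2) (-c1)) Lf) (hg : IsLogBranch (Phi 1 (-c2)) Lg) :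
    ∃ w : ℂ, {z : ℂ | z ∈ ball (0 : ℂ) 1 ∧ z * exp (α * Lf z + β * Lg z) = w}.Infinite := by
  have hβ : 0 < β := lt_of_lt_of_le hα hαβ
  set e : ℝ := (α / β) ^ 2 with he
  have he0 : 0 < e := by positivity
  have he1 : e ≤ 1 := by
    have : α / β ≤ 1 := (div_le_one hβ).mpr hαβ
    have h2 : 0 < α / β := by positivity
    rw [he]; nlinarith
  set lam : ℝ := Real.log (α / β) with hlam
  have hpi := Real.pi_gt_three
  obtain ⟨R1, hR1⟩ := exists_small he0 he1 c1_re c1_im (s := 1 / 18) (by norm_num) (by norm_num)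
  obtain ⟨R2, hR2⟩ := exists_small one_pos le_rfl c2_re c2_im (s := 1 / 18) (by norm_num)
    (by norm_num)
  set R : ℝ := max 1 (max R1 R2) with hR
  have hRpos : 0 < R := lt_of_lt_of_le one_pos (le_max_left _ _)
  have hs1 : ∀ τ ∈ Om R, Small e c1 (1 / 18) τ := fun τ hτ =>
    hR1 τ (((le_max_left _ _).trans (le_max_right _ _)).trans hτ.1) hτ.2
  have hs2 : ∀ τ ∈ Om R, Small 1 c2 (1 / 18) τ := fun τ hτ =>
    hR2 τ (((le_max_right _ _).trans (le_max_right _ _)).trans hτ.1) hτ.2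
  have hs1' : ∀ τ ∈ Om R, Small e c1 (1 / 2) τ := fun τ hτ => (hs1 τ hτ).mono (by norm_num)
  have hs2' : ∀ τ ∈ Om R, Small 1 c2 (1 / 2) τ := fun τ hτ => (hs2 τ hτ).mono (by norm_num)
  obtain ⟨K1, hK1⟩ := branch_const he0 c1_ne hf hRpos hs1'
  obtain ⟨K2, hK2⟩ := branch_const one_pos c2_ne hg hRpos hs2'
  set T : ℕ → ℝ := fun m => 2 * Real.pi * m + Real.pi - lam with hT
  obtain ⟨N0, hN0⟩ : ∃ N0 : ℕ, ∀ m : ℕ, N0 ≤ m → R ≤ T m - 1 := by
    obtain ⟨N, hN⟩ := exists_nat_ge (R + 1 + lam)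
    refine ⟨N, fun m hm => ?_⟩
    have h1 : (N : ℝ) ≤ m := by exact_mod_cast hm
    have h2 : (0 : ℝ) ≤ m := by positivity
    simp only [hT]
    nlinarith
  have hball : ∀ m : ℕ, N0 ≤ m → ∀ τ ∈ closedBall ((T m : ℝ) : ℂ) 1,
      τ ∈ Om R ∧ |τ.re - T m| ≤ 1 := by
    intro m hm τ hτ
    have h1 : ‖τ - (T m : ℝ)‖ ≤ 1 := by simpa [dist_eq_norm] using hτ
    have h2 := (abs_re_le_norm (τ - (T m : ℝ))).trans h1
    have h3 := (abs_im_le_norm (τ - (T m : ℝ))).trans h1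
    rw [sub_re, ofReal_re] at h2
    rw [sub_im, ofReal_im, sub_zero] at h3
    refine ⟨⟨?_, h3⟩, h2⟩
    linarith [(abs_le.mp h2).1, hN0 m hm]
  have hsol : ∀ m : ℕ, N0 ≤ m → ∃ τ ∈ closedBall ((T m : ℝ) : ℂ) 1,
      I * (τ - T m) + (c1 * del e τ - eta (A e c1 τ) + eta (A 1 c2 τ)) = 0 := by
    intro m hm
    have hb := fun τ hτ => (hball m hm τ hτ).1
    apply exists_zero_linear (η := fun τ => c1 * del e τ - eta (A e c1 τ) + eta (A 1 c2 τ))
    · refine DifferentiableOn.add (DifferentiableOn.sub ?_ ?_) ?_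
      · apply DifferentiableOn.const_mul
        exact differentiableOn_del (fun τ hτ => (hs1' τ (hb τ hτ)).1)
      · intro τ hτ
        exact (differentiableAt_eta (A_ne _ _ _) (hs1' τ (hb τ hτ)).2).comp_differentiableWithinAt τ
          (differentiableOn_A (fun σ hσ => hs1' σ (hb σ hσ)) τ hτ)
      · intro τ hτ
        exact (differentiableAt_eta (A_ne _ _ _) (hs2' τ (hb τ hτ)).2).comp_differentiableWithinAt τ
          (differentiableOn_A (fun σ hσ => hs2' σ (hb σ hσ)) τ hτ)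
    · intro τ hτ
      have h3 := norm_log_one_add_half_le_self (hs1' τ (hb τ hτ)).1
      have h4 : ‖del e τ‖ ≤ 1 / 12 := by
        unfold del
        linarith [(hs1 τ (hb τ hτ)).1]
      have h5 : ‖c1 * del e τ‖ ≤ 1 / 12 := by
        rw [norm_mul]
        have := norm_c1_le
        nlinarith [norm_nonneg c1, norm_nonneg (del e τ)]
      have h6 := norm_eta (A_ne e c1 τ) (hs1' τ (hb τ hτ)).2
      have h7 := norm_eta (A_ne 1 c2 τ) (hs2' τ (hb τ hτ)).2
      have h8 := (hs1 τ (hb τ hτ)).2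
      have h9 := (hs2 τ (hb τ hτ)).2
      have h10 := norm_add_le (c1 * del e τ - eta (A e c1 τ)) (eta (A 1 c2 τ))
      have h11 := norm_sub_le (c1 * del e τ) (eta (A e c1 τ))
      linarith
  choose! τ hτ1 hτ2 using hsol
  refine ⟨exp (α * K1 + β * K2), ?_⟩
  refine Set.infinite_of_injective_forall_mem (f := fun m : ℕ => zt (τ (m + N0))) ?_ ?_
  · intro a b hab
    have ha : N0 ≤ a + N0 := by omega
    have hb : N0 ≤ b + N0 := by omega
    have h1 := zt_inj (hball _ ha _ (hτ1 _ ha)).1.2 (hball _ hb _ (hτ1 _ hb)).1.2 hab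
    have h2 := abs_le.mp (hball _ ha _ (hτ1 _ ha)).2
    have h3 := abs_le.mp (hball _ hb _ (hτ1 _ hb)).2
    simp only [hT] at h2 h3
    push_cast at h2 h3
    by_contra hne
    rcases lt_or_gt_of_ne hne with hlt | hlt
    · have h4 : (a : ℝ) + 1 ≤ b := by exact_mod_cast hlt
      nlinarith
    · have h4 : (b : ℝ) + 1 ≤ a := by exact_mod_cast hlt
      nlinarith
  · intro m
    have hm : N0 ≤ m + N0 := by omega
    show zt (τ (m + N0)) ∈ _
    obtain ⟨k, hk⟩ : ∃ k, k = m + N0 := ⟨_, rfl⟩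
    rw [← hk] at hm ⊢
    have hO := (hball _ hm _ (hτ1 _ hm)).1
    refine ⟨zt_mem hO.2, ?_⟩
    have heq := hτ2 k hm
    have hz0 := slitPlane_ne_zero (zt_slit (lt_of_lt_of_le hRpos hO.1) hO.2)
    have e1 := hK1 _ hO
    have e2 := hK2 _ hO
    have hloge : Real.log e = 2 * lam := by
      rw [he, hlam, Real.log_pow]; norm_num
    have hzero : (α : ℂ) * log (1 - A e c1 (τ k)) + β * log (1 - A 1 c2 (τ k)) = 0 := by
      rw [log_eq_eta (A_ne _ _ _) (hs1' _ hO).2, log_eq_eta (A_ne _ _ _) (hs2' _ hO).2]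
      have hdel1 : del 1 (τ k) = 0 := by simp [del]
      have hexp : -c1 * (Real.log e + τ k + del e (τ k)) + eta (A e c1 (τ k)) =
          (-c2 * (Real.log 1 + τ k + del 1 (τ k)) + eta (A 1 c2 (τ k))) +
            (-lam + (-(Real.pi * I)) + (-(k : ℤ) : ℤ) * (2 * Real.pi * I)) := by
        rw [hloge, hdel1, Real.log_one]
        have h5 : (c1 - c2) = I := by unfold c1 c2; ring
        have h6 : (2 : ℂ) * c1 = 1 + I := by unfold c1; ring
        simp only [hT] at heq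
        push_cast at heq ⊢
        linear_combination -heq - (τ k) * h5 - (lam : ℂ) * h6
      have hA : A e c1 (τ k) * exp (eta (A e c1 (τ k))) =
          A 1 c2 (τ k) * exp (eta (A 1 c2 (τ k))) * (-((α / β : ℝ) : ℂ)⁻¹) := by
        have b1 : A e c1 (τ k) * exp (eta (A e c1 (τ k))) =
            exp (-c1 * (Real.log e + τ k + del e (τ k)) + eta (A e c1 (τ k))) := by
          rw [exp_add]; rfl
        have b2 : A 1 c2 (τ k) * exp (eta (A 1 c2 (τ k))) =
            exp (-c2 * (Real.log 1 + τ k + del 1 (τ k)) + eta (A 1 c2 (τ k))) := by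
          rw [exp_add]; rfl
        rw [b1, b2, hexp, exp_add _ (_ + _ + _), exp_add (_ + _), exp_add (-_),
          exp_int_mul_two_pi_mul_I, mul_one, exp_neg, exp_neg, exp_pi_mul_I, ← ofReal_exp,
          Real.exp_log (by positivity)]
        norm_num
      have hαc : (α : ℂ) ≠ 0 := by exact_mod_cast hα.ne'
      have hβc : (β : ℂ) ≠ 0 := by exact_mod_cast hβ.ne'
      have b3 : (α : ℂ) * ((α / β : ℝ) : ℂ)⁻¹ = β := by
        push_cast; field_simp
      linear_combination (-α : ℂ) * hA + (A 1 c2 (τ k) * exp (eta (A 1 c2 (τ k)))) * b3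
    have hs : (α : ℂ) + β = 1 := by exact_mod_cast hsum
    have hfin : log (zt (τ k)) + (α * Lf (zt (τ k)) + β * Lg (zt (τ k))) = α * K1 + β * K2 := by
      linear_combination (α : ℂ) * e1 + (β : ℂ) * e2 + hzero - log (zt (τ k)) * hs
    rw [← hfin, exp_add (log _), exp_log hz0]

theorem main (α : ℝ) (h0 : 0 < α) (h1 : α < 1) : ∃ f g Lf Lg : ℂ → ℂ,
    ClassS f ∧ ClassS g ∧ IsLogBranch f Lf ∧ IsLogBranch g Lg ∧
    ∃ w : ℂ, {z : ℂ | z ∈ ball (0 : ℂ) 1 ∧
      z * exp ((α : ℂ) * Lf z + (1 - (α : ℂ)) * Lg z) = w}.Infinite := by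
  have hc1 : 1 ≤ |((-c1)⁻¹).re| := by rw [inv_neg, c1_inv]; simp
  have hc2 : 1 ≤ |((-c2)⁻¹).re| := by rw [inv_neg, c2_inv]; simp
  have hS2 : ClassS (Phi 1 (-c2)) := Phi_classS one_pos le_rfl (neg_ne_zero.mpr c2_ne) hc2
  obtain ⟨L2, hL2⟩ := exists_branch hS2
  have hβ : 0 < 1 - α := by linarith
  rcases le_total α (1 - α) with h | h
  · have hq1 : α / (1 - α) ≤ 1 := (div_le_one hβ).mpr h
    have hq0 : 0 < α / (1 - α) := by positivity
    have hS1 : ClassS (Phi ((α / (1 - α)) ^ 2) (-c1)) :=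
      Phi_classS (by positivity) (by nlinarith) (neg_ne_zero.mpr c1_ne) hc1
    obtain ⟨L1, hL1⟩ := exists_branch hS1
    refine ⟨_, _, L1, L2, hS1, hS2, hL1, hL2, ?_⟩
    have := geom_main h0 h (by ring) hL1 hL2
    push_cast at this
    exact this
  · have hq1 : (1 - α) / α ≤ 1 := (div_le_one h0).mpr h
    have hq0 : 0 < (1 - α) / α := by positivity
    have hS1 : ClassS (Phi (((1 - α) / α) ^ 2) (-c1)) :=
      Phi_classS (by positivity) (by nlinarith) (neg_ne_zero.mpr c1_ne) hc1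
    obtain ⟨L1, hL1⟩ := exists_branch hS1
    refine ⟨_, _, L2, L1, hS2, hS1, hL2, hL1, ?_⟩
    obtain ⟨w, hw⟩ := geom_main hβ h (by ring) hL1 hL2
    refine ⟨w, ?_⟩
    push_cast at hw
    have h3 : ∀ z : ℂ, (α : ℂ) * L2 z + (1 - (α : ℂ)) * L1 z = (1 - (α : ℂ)) * L1 z + α * L2 z :=
      fun z => add_comm _ _
    simp only [h3]
    exact hw

end Pool.Agent.H109Z.GeomMean
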