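import Mathlib

set_option autoImplicit false

/-! A triangle-free Cayley graph on `𝔽₂¹¹` whose Hadamard critical exponent exceeds `1`. -/

namespace Pool.Agent.H109Z.Hadamard

open Finset

/-- The vertex set. -/
abbrev V : Type := Fin 11 → ZMod 2

/-- Sign of an element of `𝔽₂`. -/
def sg (c : ZMod 2) : ℤ := if c = 0 then 1 else -1

theorem sg_zero : sg 0 = 1 := by decide
theorem sg_add : ∀ c d : ZMod 2, sg (c + d) = sg c * sg d := by decide
theorem sum_sg : ∀ c : ZMod 2, ∑ d : ZMod 2, sg (d * c) = if c = 0 then 2 else 0 := by decide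
theorem sum_sg' : ∀ c : ZMod 2, ∑ d : ZMod 2, sg (c * d) = 1 + sg c := by decide
theorem sg_sq : ∀ c : ZMod 2, sg c * sg c = 1 := by decide

/-- Characters of `𝔽₂¹¹`. -/
def chi (q x : V) : ℤ := ∏ i, sg (q i * x i)

theorem chi_add (q x y : V) : chi q (x + y) = chi q x * chi q y := by
  unfold chi
  rw [← prod_mul_distrib]
  exact prod_congr rfl (fun i _ => by rw [Pi.add_apply, mul_add, sg_add])

theorem chi_zero (q : V) : chi q 0 = 1 := by
  unfold chi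
  simp [sg_zero]

theorem chi_sq (q x : V) : chi q x * chi q x = 1 := by
  unfold chi
  rw [← prod_mul_distrib]
  exact prod_eq_one (fun i _ => sg_sq _)

theorem add_self (x : V) : x + x = 0 := by
  funext i
  exact CharTwo.add_self_eq_zero (x i)

theorem add_eq_zero' {x y : V} : x + y = 0 ↔ x = y := by
  constructor
  · intro h
    have : x + y + y = 0 + y := by rw [h]
    rwa [add_assoc, add_self, add_zero, zero_add] at this
  · rintro rfl; exact add_self x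

theorem sum_chi (x : V) : ∑ q : V, chi q x = if x = 0 then 2048 else 0 := by
  unfold chi
  have h := prod_univ_sum (fun _ : Fin 11 => (univ : Finset (ZMod 2)))
    (fun i (d : ZMod 2) => sg (d * x i))
  rw [Fintype.piFinset_univ] at h
  rw [← h]
  simp only [sum_sg]
  split_ifs with hx
  · subst hx; simp
  · obtain ⟨i, hi⟩ := Function.ne_iff.mp hx
    exact prod_eq_zero (mem_univ i) (if_neg hi)

/-- Fourier transform. -/
def hat (f : V → ℝ) (q : V) : ℝ := ∑ s, f s * (chi q s : ℝ)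

theorem inversion (f : V → ℝ) (x : V) : 2048 * f x = ∑ q, hat f q * (chi q x : ℝ) := by
  unfold hat
  simp only [sum_mul]
  rw [sum_comm]
  have h : ∀ s : V, ∑ q : V, f s * (chi q s : ℝ) * (chi q x : ℝ) =
      if s = x then 2048 * f s else 0 := by
    intro s
    have h1 : ∑ q : V, f s * (chi q s : ℝ) * (chi q x : ℝ) =
        f s * ((∑ q : V, chi q (s + x) : ℤ) : ℝ) := by
      push_cast
      rw [mul_sum]
      exact sum_congr rfl (fun q _ => by rw [chi_add]; push_cast; ring)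
    rw [h1, sum_chi]
    by_cases hs : s = x
    · rw [if_pos hs, if_pos (add_eq_zero'.mpr hs)]; push_cast; ring
    · rw [if_neg hs, if_neg (fun h => hs (add_eq_zero'.mp h))]; simp
  simp only [h]
  rw [sum_ite_eq' univ x]
  simp

/-- The matrix of convolution with `f`. -/
def mat (f : V → ℝ) : Matrix V V ℝ := fun x y => f (x + y)

theorem psd_of_hat (f : V → ℝ) (hf : ∀ q, 0 ≤ hat f q) : (mat f).PosSemidef := by
  rw [Matrix.posSemidef_iff_dotProduct_mulVec]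
  refine ⟨?_, fun v => ?_⟩
  · ext x y
    simp [mat, add_comm]
  · have h : 2048 * (star v ⬝ᵥ (mat f).mulVec v) =
        ∑ q, hat f q * (∑ x, v x * (chi q x : ℝ)) ^ 2 := by
      simp only [dotProduct, Matrix.mulVec, mat, star_trivial, mul_sum]
      have h1 : ∀ x y : V, 2048 * (v x * (f (x + y) * v y)) =
          ∑ q, hat f q * ((v x * (chi q x : ℝ)) * (v y * (chi q y : ℝ))) := by
        intro x y
        have h2 : 2048 * (v x * (f (x + y) * v y)) = (2048 * f (x + y)) * (v x * v y) := by ring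
        rw [h2, inversion, sum_mul]
        exact sum_congr rfl (fun q _ => by rw [chi_add]; push_cast; ring)
      simp only [h1]
      have h3 : ∀ q : V, hat f q * (∑ x, v x * (chi q x : ℝ)) ^ 2 =
          ∑ x, ∑ y, hat f q * ((v x * (chi q x : ℝ)) * (v y * (chi q y : ℝ))) := by
        intro q
        rw [sq, sum_mul_sum, mul_sum]
        exact sum_congr rfl (fun x _ => by rw [mul_sum])
      simp only [h3]
      rw [sum_comm (s := (univ : Finset V)) (t := (univ : Finset V))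
        (f := fun q x => ∑ y, hat f q * ((v x * (chi q x : ℝ)) * (v y * (chi q y : ℝ))))]
      exact sum_congr rfl (fun x _ => sum_comm)
    have h4 : 0 ≤ ∑ q, hat f q * (∑ x, v x * (chi q x : ℝ)) ^ 2 :=
      sum_nonneg (fun q _ => mul_nonneg (hf q) (sq_nonneg _))
    linarith

theorem hat_nonneg_of_psd (f : V → ℝ) (hf : (mat f).PosSemidef) (q : V) : 0 ≤ hat f q := by
  have h := hf.dotProduct_mulVec_nonneg (fun x => (chi q x : ℝ))
  simp only [dotProduct, Matrix.mulVec, mat, star_trivial] at h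
  have h1 : ∀ x : V, (chi q x : ℝ) * ∑ y, f (x + y) * (chi q y : ℝ) = hat f q := by
    intro x
    unfold hat
    rw [mul_sum, ← Equiv.sum_comp (Equiv.addLeft x) (fun s => f s * (chi q s : ℝ))]
    refine sum_congr rfl (fun y _ => ?_)
    simp only [Equiv.coe_addLeft]
    rw [chi_add]; push_cast; ring
  simp only [h1, sum_const, card_univ, nsmul_eq_mul] at h
  have h2 : (0 : ℝ) < (Fintype.card V : ℝ) := by exact_mod_cast Fintype.card_pos
  exact nonneg_of_mul_nonneg_right h h2 |> fun h' => h'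

/-- Heavy generators with second coordinate `0`. -/
def u : Fin 8 → V :=
  ![![1, 0, 0, 0, 0, 0, 0, 0, 0, 0, 0],
    ![1, 0, 0, 0, 1, 0, 0, 0, 0, 0, 0],
    ![1, 0, 0, 1, 0, 0, 0, 0, 0, 0, 0],
    ![1, 0, 0, 1, 1, 0, 0, 0, 0, 0, 1],
    ![1, 0, 1, 0, 0, 0, 0, 0, 0, 0, 0],
    ![1, 0, 1, 0, 1, 0, 0, 0, 0, 1, 0],
    ![1, 0, 1, 1, 0, 0, 0, 0, 1, 0, 0],
    ![1, 0, 1, 1, 1, 0, 0, 0, 1, 1, 1]]

/-- Heavy generators with second coordinate `1`. -/
def w : Fin 8 → V :=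
  ![![1, 1, 0, 0, 0, 0, 0, 0, 0, 0, 0],
    ![1, 1, 0, 0, 1, 0, 0, 1, 0, 0, 0],
    ![1, 1, 0, 1, 0, 0, 1, 0, 0, 0, 0],
    ![1, 1, 0, 1, 1, 0, 1, 1, 0, 0, 1],
    ![1, 1, 1, 0, 0, 1, 0, 0, 0, 0, 0],
    ![1, 1, 1, 0, 1, 1, 0, 1, 0, 1, 0],
    ![1, 1, 1, 1, 0, 1, 1, 0, 1, 0, 0],
    ![1, 1, 1, 1, 1, 1, 1, 1, 1, 1, 1]]

theorem u_inj : Function.Injective u := by decide +kernel
theorem w_inj : Function.Injective w := by decide +kernel
theorem uw_inj : Function.Injective (fun p : Fin 8 × Fin 8 => u p.1 + w p.2) := by decide +kernel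
theorem u_c : ∀ i, u i 0 = 1 ∧ u i 1 = 0 := by decide +kernel
theorem w_c : ∀ i, w i 0 = 1 ∧ w i 1 = 1 := by decide +kernel

/-- Allowed values per coordinate for the set `O`. -/
def tO (i : Fin 11) : Finset (ZMod 2) := if i = 0 then {0} else if i = 1 then {1} else univ

/-- The vectors with coordinates `0, 1` at the first two places. -/
def O : Finset V := Fintype.piFinset tO

theorem mem_O {s : V} : s ∈ O ↔ s 0 = 0 ∧ s 1 = 1 := by
  unfold O
  rw [Fintype.mem_piFinset]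
  constructor
  · intro h
    have h0 := h 0
    have h1 := h 1
    simp [tO] at h0 h1
    exact ⟨h0, h1⟩
  · rintro ⟨h0, h1⟩ i
    unfold tO
    split_ifs with a b
    · subst a; simp [h0]
    · subst b; simp [h1]
    · simp

/-- The heavy sets and the light set. -/
def TU : Finset V := univ.image u
def TW : Finset V := univ.image w
def TS : Finset V := univ.image (fun p : Fin 8 × Fin 8 => u p.1 + w p.2)
def L : Finset V := O \ TS

theorem TS_sub : TS ⊆ O := by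
  intro s hs
  obtain ⟨p, -, rfl⟩ := mem_image.mp hs
  rw [mem_O]
  simp only [Pi.add_apply, (u_c _).1, (u_c _).2, (w_c _).1, (w_c _).2]
  decide

theorem TU_c {s : V} (h : s ∈ TU) : s 0 = 1 ∧ s 1 = 0 := by
  obtain ⟨p, -, rfl⟩ := mem_image.mp h
  exact u_c p

theorem TW_c {s : V} (h : s ∈ TW) : s 0 = 1 ∧ s 1 = 1 := by
  obtain ⟨p, -, rfl⟩ := mem_image.mp h
  exact w_c p

theorem L_c {s : V} (h : s ∈ L) : s 0 = 0 ∧ s 1 = 1 := mem_O.mp (mem_sdiff.mp h).1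

/-- The weight function. -/
noncomputable def F (b a : ℝ) (s : V) : ℝ :=
  if s = 0 then 1 else if s ∈ TU then b else if s ∈ TW then b else if s ∈ L then a else 0

theorem F_eq (b a : ℝ) (s : V) : F b a s = (if s = 0 then 1 else 0) + b * (if s ∈ TU then 1 else 0) +
    b * (if s ∈ TW then 1 else 0) + a * (if s ∈ L then 1 else 0) := by
  have h01 : (0 : ZMod 2) ≠ 1 := by decide
  unfold F
  by_cases h0 : s = 0
  · have a1 : s ∉ TU := fun h => h01 (by have := (TU_c h).1; rwa [h0] at this)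
    have a2 : s ∉ TW := fun h => h01 (by have := (TW_c h).1; rwa [h0] at this)
    have a3 : s ∉ L := fun h => h01 (by have := (L_c h).2; rwa [h0] at this)
    simp only [if_pos h0, if_neg a1, if_neg a2, if_neg a3]; ring
  · by_cases h1 : s ∈ TU
    · have a2 : s ∉ TW := fun h => h01 ((TU_c h1).2.symm.trans (TW_c h).2)
      have a3 : s ∉ L := fun h => h01 ((TU_c h1).2.symm.trans (L_c h).2)
      simp only [if_neg h0, if_pos h1, if_neg a2, if_neg a3]; ring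
    · by_cases h2 : s ∈ TW
      · have a3 : s ∉ L := fun h => h01 ((L_c h).1.symm.trans (TW_c h2).1)
        simp only [if_neg h0, if_neg h1, if_pos h2, if_neg a3]; ring
      · by_cases h3 : s ∈ L
        · simp only [if_neg h0, if_neg h1, if_neg h2, if_pos h3]; ring
        · simp only [if_neg h0, if_neg h1, if_neg h2, if_neg h3]; ring

/-- The three character sums. -/
def Uh (q : V) : ℤ := ∑ i, chi q (u i)
def Wh (q : V) : ℤ := ∑ i, chi q (w i)
def Oh (q : V) : ℤ := ∑ s ∈ O, chi q s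

theorem sum_ind (S : Finset V) (q : V) :
    ∑ s : V, (if s ∈ S then (1 : ℝ) else 0) * (chi q s : ℝ) = ((∑ s ∈ S, chi q s : ℤ) : ℝ) := by
  simp only [ite_mul, one_mul, zero_mul]
  rw [sum_ite_mem, univ_inter]
  push_cast
  rfl

theorem hat_F (b a : ℝ) (q : V) :
    hat (F b a) q = 1 + b * (Uh q + Wh q) + a * (Oh q - Uh q * Wh q) := by
  have h1 : ∑ s ∈ TU, chi q s = Uh q := by
    unfold TU Uh; rw [sum_image (fun x _ y _ h => u_inj h)]
  have h2 : ∑ s ∈ TW, chi q s = Wh q := by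
    unfold TW Wh; rw [sum_image (fun x _ y _ h => w_inj h)]
  have h3 : ∑ s ∈ TS, chi q s = Uh q * Wh q := by
    unfold TS Uh Wh
    rw [sum_image (fun x _ y _ h => uw_inj h), sum_mul_sum, Fintype.sum_prod_type]
    simp only [chi_add]
  have h4 : ∑ s ∈ L, chi q s = Oh q - Uh q * Wh q := by
    unfold L Oh
    rw [sum_sdiff_eq_sub TS_sub, h3]
  have h5 : ∑ s : V, (if s = 0 then (1 : ℝ) else 0) * (chi q s : ℝ) = 1 := by
    simp [chi_zero]
  unfold hat
  simp only [F_eq, add_mul, sum_add_distrib, mul_assoc, ← mul_sum]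
  rw [h5, sum_ind, sum_ind, sum_ind, h1, h2, h4]
  push_cast
  ring

theorem Uh_eq (q : V) : Uh q = sg (q 0) + sg (q 0)*sg (q 4) + sg (q 0)*sg (q 3) + sg (q 0)*sg (q 3)*sg (q 4)*sg (q 10) + sg (q 0)*sg (q 2) + sg (q 0)*sg (q 2)*sg (q 4)*sg (q 9) + sg (q 0)*sg (q 2)*sg (q 3)*sg (q 8) + sg (q 0)*sg (q 2)*sg (q 3)*sg (q 4)*sg (q 8)*sg (q 9)*sg (q 10) := by
  simp [Uh, chi, u, Fin.sum_univ_succ, Fin.prod_univ_succ, sg_zero]
  ring

theorem Wh_eq (q : V) : Wh q = sg (q 0)*sg (q 1) + sg (q 0)*sg (q 1)*sg (q 4)*sg (q 7) + sg (q 0)*sg (q 1)*sg (q 3)*sg (q 6) + sg (q 0)*sg (q 1)*sg (q 3)*sg (q 4)*sg (q 6)*sg (q 7)*sg (q 10) + sg (q 0)*sg (q 1)*sg (q 2)*sg (q 5) + sg (q 0)*sg (q 1)*sg (q 2)*sg (q 4)*sg (q 5)*sg (q 7)*sg (q 9) + sg (q 0)*sg (q 1)*sg (q 2)*sg (q 3)*sg (q 5)*sg (q 6)*sg (q 8) + sg (q 0)*sg (q 1)*sg (q 2)*sg (q 3)*sg (q 4)*sg (q 5)*sg (q 6)*sg (q 7)*sg (q 8)*sg (q 9)*sg (q 10) := by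
  simp [Wh, chi, w, Fin.sum_univ_succ, Fin.prod_univ_succ, sg_zero]
  ring

theorem Oh_eq (q : V) : Oh q = sg (q 1) * (1 + sg (q 2)) * (1 + sg (q 3)) * (1 + sg (q 4)) * (1 + sg (q 5)) * (1 + sg (q 6)) * (1 + sg (q 7)) * (1 + sg (q 8)) * (1 + sg (q 9)) * (1 + sg (q 10)) := by
  unfold Oh O chi
  rw [← prod_univ_sum tO (fun i (d : ZMod 2) => sg (q i * d))]
  simp [Fin.prod_univ_succ, tO, sum_sg', sg_zero]
  ring

theorem key : ∀ q0 q1 q2 q3 q4 q5 q6 q7 q8 q9 q10 : ZMod 2,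
    0 ≤ 30 ^ 8 * 13 ^ 8 + 23 ^ 8 * 13 ^ 8 * ((sg q0 + sg q0*sg q4 + sg q0*sg q3 + sg q0*sg q3*sg q4*sg q10 + sg q0*sg q2 + sg q0*sg q2*sg q4*sg q9 + sg q0*sg q2*sg q3*sg q8 + sg q0*sg q2*sg q3*sg q4*sg q8*sg q9*sg q10) + (sg q0*sg q1 + sg q0*sg q1*sg q4*sg q7 + sg q0*sg q1*sg q3*sg q6 + sg q0*sg q1*sg q3*sg q4*sg q6*sg q7*sg q10 + sg q0*sg q1*sg q2*sg q5 + sg q0*sg q1*sg q2*sg q4*sg q5*sg q7*sg q9 + sg q0*sg q1*sg q2*sg q3*sg q5*sg q6*sg q8 + sg q0*sg q1*sg q2*sg q3*sg q4*sg q5*sg q6*sg q7*sg q8*sg q9*sg q10)) +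
      6 ^ 8 * 30 ^ 8 * (sg q1 * (1 + sg q2) * (1 + sg q3) * (1 + sg q4) * (1 + sg q5) * (1 + sg q6) * (1 + sg q7) * (1 + sg q8) * (1 + sg q9) * (1 + sg q10) - (sg q0 + sg q0*sg q4 + sg q0*sg q3 + sg q0*sg q3*sg q4*sg q10 + sg q0*sg q2 + sg q0*sg q2*sg q4*sg q9 + sg q0*sg q2*sg q3*sg q8 + sg q0*sg q2*sg q3*sg q4*sg q8*sg q9*sg q10) * (sg q0*sg q1 + sg q0*sg q1*sg q4*sg q7 + sg q0*sg q1*sg q3*sg q6 + sg q0*sg q1*sg q3*sg q4*sg q6*sg q7*sg q10 + sg q0*sg q1*sg q2*sg q5 + sg q0*sg q1*sg q2*sg q4*sg q5*sg q7*sg q9 + sg q0*sg q1*sg q2*sg q3*sg q5*sg q6*sg q8 + sg q0*sg q1*sg q2*sg q3*sg q4*sg q5*sg q6*sg q7*sg q8*sg q9*sg q10)) := by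
  decide +kernel

theorem key' (q : V) : (0 : ℤ) ≤ 30 ^ 8 * 13 ^ 8 + 23 ^ 8 * 13 ^ 8 * (Uh q + Wh q) +
    6 ^ 8 * 30 ^ 8 * (Oh q - Uh q * Wh q) := by
  rw [Uh_eq, Wh_eq, Oh_eq]
  exact key _ _ _ _ _ _ _ _ _ _ _

theorem psd : (mat (F ((23 / 30) ^ 8) ((6 / 13) ^ 8))).PosSemidef := by
  apply psd_of_hat
  intro q
  rw [hat_F]
  have h : (0 : ℝ) ≤ 30 ^ 8 * 13 ^ 8 + 23 ^ 8 * 13 ^ 8 * ((Uh q : ℝ) + Wh q) +
      6 ^ 8 * 30 ^ 8 * ((Oh q : ℝ) - Uh q * Wh q) := by exact_mod_cast key' q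
  have h2 : (1 : ℝ) + (23 / 30) ^ 8 * ((Uh q : ℝ) + Wh q) + (6 / 13) ^ 8 * ((Oh q : ℝ) - Uh q * Wh q) =
      (30 ^ 8 * 13 ^ 8 + 23 ^ 8 * 13 ^ 8 * ((Uh q : ℝ) + Wh q) +
      6 ^ 8 * 30 ^ 8 * ((Oh q : ℝ) - Uh q * Wh q)) / (30 ^ 8 * 13 ^ 8) := by
    field_simp
  rw [h2]
  positivity

theorem not_psd : ¬ (mat (F ((23 / 30) ^ 9) ((6 / 13) ^ 9))).PosSemidef := by
  intro h
  have h1 := hat_nonneg_of_psd _ h ![1, 0, 0, 0, 0, 0, 0, 0, 0, 0, 0]
  rw [hat_F, Uh_eq, Wh_eq, Oh_eq] at h1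
  have s1 : sg 1 = -1 := by decide
  simp [s1, sg_zero] at h1
  norm_num at h1

theorem pow_eq (p : ℝ) (hp : 0 ≤ p) : (p ^ 8) ^ ((9 : ℝ) / 8) = p ^ 9 := by
  rw [← Real.rpow_natCast p 8, ← Real.rpow_mul hp, ← Real.rpow_natCast p 9]
  norm_num

theorem map_eq : (mat (F ((23 / 30) ^ 8) ((6 / 13) ^ 8))).map (fun x : ℝ => x ^ ((9 : ℝ) / 8)) =
    mat (F ((23 / 30) ^ 9) ((6 / 13) ^ 9)) := by
  ext x y
  simp only [Matrix.map_apply, mat, F]
  split_ifs
  · exact Real.one_rpow _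
  · exact pow_eq _ (by norm_num)
  · exact pow_eq _ (by norm_num)
  · exact pow_eq _ (by norm_num)
  · exact Real.zero_rpow (by norm_num)

/-- The Cayley graph. -/
def G : SimpleGraph V where
  Adj x y := x + y ∈ TU ∨ x + y ∈ TW ∨ x + y ∈ L
  symm := ⟨fun x y h => by rwa [add_comm] at h⟩
  loopless := ⟨fun x h => by
    have h01 : (0 : ZMod 2) ≠ 1 := by decide
    rw [add_self] at h
    rcases h with h | h | h
    · exact h01 (TU_c h).1
    · exact h01 (TW_c h).1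
    · exact h01 (L_c h).2⟩

theorem no_three_abs (A B C : V → Prop) (hA : ∀ s, A s → s 0 = 1 ∧ s 1 = 0)
    (hB : ∀ s, B s → s 0 = 1 ∧ s 1 = 1) (hC : ∀ s, C s → s 0 = 0 ∧ s 1 = 1)
    (key : ∀ {x y z : V}, A x → B y → C z → x + y + z = 0 → False) {r s t : V}
    (hr : A r ∨ B r ∨ C r) (hs : A s ∨ B s ∨ C s) (ht : A t ∨ B t ∨ C t) (h : r + s + t = 0) :
    False := by
  have h0 := congrFun h 0
  have h1 := congrFun h 1
  simp only [Pi.add_apply, Pi.zero_apply] at h0 h1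
  rcases hr with hr | hr | hr <;> rcases hs with hs | hs | hs <;> rcases ht with ht | ht | ht <;>
  first
    | exact key hr hs ht h
    | exact key hr ht hs (by rw [← h]; abel)
    | exact key hs hr ht (by rw [← h]; abel)
    | exact key hs ht hr (by rw [← h]; abel)
    | exact key ht hr hs (by rw [← h]; abel)
    | exact key ht hs hr (by rw [← h]; abel)
    | (have a1 := by first | exact hA _ hr | exact hB _ hr | exact hC _ hr
       have a2 := by first | exact hA _ hs | exact hB _ hs | exact hC _ hs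
       have a3 := by first | exact hA _ ht | exact hB _ ht | exact hC _ ht
       rw [a1.1, a2.1, a3.1] at h0
       rw [a1.2, a2.2, a3.2] at h1
       revert h0 h1
       decide)

theorem no_three {r s t : V} (hr : r ∈ TU ∨ r ∈ TW ∨ r ∈ L) (hs : s ∈ TU ∨ s ∈ TW ∨ s ∈ L)
    (ht : t ∈ TU ∨ t ∈ TW ∨ t ∈ L) (h : r + s + t = 0) : False := by
  refine no_three_abs (· ∈ TU) (· ∈ TW) (· ∈ L) (fun _ => TU_c) (fun _ => TW_c) (fun _ => L_c)
    ?_ hr hs ht h
  intro x y z hx hy hz h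
  obtain ⟨i, -, rfl⟩ := mem_image.mp hx
  obtain ⟨j, -, rfl⟩ := mem_image.mp hy
  apply (mem_sdiff.mp hz).2
  rw [← add_eq_zero'.mp h]
  exact mem_image.mpr ⟨(i, j), mem_univ _, rfl⟩

theorem triangle_free {x y z : V} (h1 : G.Adj x y) (h2 : G.Adj y z) (h3 : G.Adj x z) : False := by
  apply no_three h1 h2 h3
  have : x + y + (y + z) + (x + z) = (x + x) + (y + y) + (z + z) := by abel
  rw [this, add_self x, add_self y, add_self z]; simp

theorem pattern (b a : ℝ) (x y : V) (hxy : x ≠ y) (h : ¬ G.Adj x y) : mat (F b a) x y = 0 := by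
  have h' : ¬ (x + y ∈ TU ∨ x + y ∈ TW ∨ x + y ∈ L) := h
  push Not at h'
  unfold mat F
  rw [if_neg (fun h => hxy (add_eq_zero'.mp h)), if_neg h'.1, if_neg h'.2.1, if_neg h'.2.2]

theorem nonneg (b a : ℝ) (hb : 0 ≤ b) (ha : 0 ≤ a) (x y : V) : 0 ≤ mat (F b a) x y := by
  unfold mat F
  split_ifs <;> first | assumption | norm_num

theorem r_lower : ∃ f : Fin 3 → V, Function.Injective f ∧ ∃ a b : Fin 3, a ≠ b ∧
    ∀ i j : Fin 3, i ≠ j → ¬(i = a ∧ j = b) → ¬(i = b ∧ j = a) → G.Adj (f i) (f j) := by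
  have a1 : G.Adj 0 (u 0) := Or.inl (by rw [zero_add]; exact mem_image_of_mem _ (mem_univ _))
  have a2 : G.Adj 0 (u 1) := Or.inl (by rw [zero_add]; exact mem_image_of_mem _ (mem_univ _))
  refine ⟨![0, u 0, u 1], by decide +kernel, 1, 2, by decide, ?_⟩
  intro i j hij h1 h2
  fin_cases i <;> fin_cases j <;> simp at hij h1 h2 ⊢
  · exact a1
  · exact a2
  · exact a1.symm
  · exact a2.symm

theorem r_upper (s : ℕ) (h : ∃ f : Fin s → V, Function.Injective f ∧ ∃ a b : Fin s, a ≠ b ∧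
    ∀ i j : Fin s, i ≠ j → ¬(i = a ∧ j = b) → ¬(i = b ∧ j = a) → G.Adj (f i) (f j)) : s ≤ 3 := by
  obtain ⟨f, -, a, b, hab, h⟩ := h
  by_contra hs
  have hc : 1 < ((univ : Finset (Fin s)) \ {a, b}).card := by
    rw [card_sdiff_of_subset (subset_univ _), card_pair hab, card_univ, Fintype.card_fin]
    omega
  obtain ⟨i, hi, j, hj, hij⟩ := one_lt_card.mp hc
  simp only [mem_sdiff, mem_univ, true_and, mem_insert, mem_singleton, not_or] at hi hj
  refine triangle_free (h a i (Ne.symm hi.1) (fun h => hi.2 h.2) (fun h => hab h.1))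
    (h i j hij (fun h => hi.1 h.1) (fun h => hi.2 h.1))
    (h a j (Ne.symm hj.1) (fun h => hj.2 h.2) (fun h => hab h.1))

end Pool.Agent.H109Z.Hadamard
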