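import Mathlib

set_option autoImplicit false

/-! The Möbius ladder on 18 vertices: multipacking number 3, broadcast domination number 5. -/

namespace Pool.Agent.H109Z.Mobius

/-- Distance from `0` to `t` in the Möbius ladder on `18` vertices. -/
def del (t : ℕ) : ℕ := min (min t (18 - t)) (1 + (t - 9) + (9 - t))

/-- Distance between two vertices. -/
def D (u v : Fin 18) : ℕ := del ((v.val + 18 - u.val) % 18)

theorem D_symm : ∀ u v : Fin 18, D u v = D v u := by decide +kernel

theorem D_self : ∀ u : Fin 18, D u u = 0 := by decide +kernel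

/-- The Möbius ladder. -/
def G : SimpleGraph (Fin 18) where
  Adj u v := D u v = 1
  symm := ⟨fun u v h => by rw [D_symm]; exact h⟩
  loopless := ⟨fun u h => by rw [D_self] at h; exact absurd h (by decide)⟩

theorem D_zero : ∀ u v : Fin 18, D u v = 0 → u = v := by decide +kernel

theorem D_step : ∀ u v : Fin 18, D u v ≠ 0 → ∃ w : Fin 18, D u w = 1 ∧ D w v + 1 = D u v := by
  decide +kernel

theorem D_lip : ∀ u w : Fin 18, D u w = 1 → ∀ v : Fin 18, D u v ≤ D w v + 1 := by
  decide +kernel

theorem exists_walk (n : ℕ) : ∀ u v : Fin 18, D u v = n → ∃ p : G.Walk u v, p.length = n := by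
  induction n with
  | zero =>
    intro u v h
    obtain rfl := D_zero u v h
    exact ⟨SimpleGraph.Walk.nil, rfl⟩
  | succ n ih =>
    intro u v h
    obtain ⟨w, hw1, hw2⟩ := D_step u v (by omega)
    obtain ⟨p, hp⟩ := ih w v (by omega)
    exact ⟨SimpleGraph.Walk.cons (show G.Adj u w from hw1) p, by simp [hp]⟩

theorem D_le_length {u v : Fin 18} (p : G.Walk u v) : D u v ≤ p.length := by
  induction p with
  | nil => rw [D_self]; exact Nat.zero_le _
  | cons h p ih =>
    have := D_lip _ _ h
    simp only [SimpleGraph.Walk.length_cons]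
    exact le_trans (this _) (by omega)

theorem connected : G.Connected := by
  refine ⟨fun u v => ?_⟩
  obtain ⟨p, -⟩ := exists_walk _ u v rfl
  exact ⟨p⟩

theorem dist_eq (u v : Fin 18) : G.dist u v = D u v := by
  apply le_antisymm
  · obtain ⟨p, hp⟩ := exists_walk _ u v rfl
    rw [← hp]
    exact SimpleGraph.dist_le p
  · obtain ⟨p, hp⟩ := (connected.preconnected u v).exists_walk_length_eq_dist
    rw [← hp]
    exact D_le_length p

/-- Indicator. -/
def ind (v x : Fin 18) (r : ℕ) : ℕ := if D v x ≤ r then 1 else 0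

theorem four : ∀ a b : Fin 18, a < b → ∀ c : Fin 18, b < c → ∀ d : Fin 18, c < d →
    ∃ v : Fin 18, ∃ r : Fin 3,
      r.val + 1 < ind v a (r.val + 1) + ind v b (r.val + 1) + ind v c (r.val + 1) +
        ind v d (r.val + 1) := by
  decide +kernel

theorem ball_small : ∀ v : Fin 18, ∀ r : Fin 5,
    (Finset.univ.filter (fun u : Fin 18 => 1 ≤ r.val ∧ D u v ≤ r.val)).card ≤ 4 * r.val := by
  decide +kernel

theorem ball_le (v : Fin 18) (r : ℕ) :
    (Finset.univ.filter (fun u : Fin 18 => 1 ≤ r ∧ D u v ≤ r)).card ≤ 4 * r := by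
  by_cases h : r < 5
  · exact ball_small v ⟨r, h⟩
  · have := Finset.card_filter_le (Finset.univ : Finset (Fin 18)) (fun u : Fin 18 => 1 ≤ r ∧ D u v ≤ r)
    simp only [Finset.card_univ, Fintype.card_fin] at this
    omega

theorem three : ∀ v : Fin 18, ∀ r : Fin 3, 1 ≤ r.val →
    (({0, 5, 11} : Finset (Fin 18)).filter (fun u => D v u ≤ r.val)).card ≤ r.val := by
  decide +kernel

theorem pack3 : ∃ M : Finset (Fin 18), M.card = 3 ∧
    ∀ v : Fin 18, ∀ r : ℕ, 1 ≤ r → (M.filter (fun u => D v u ≤ r)).card ≤ r := by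
  refine ⟨{0, 5, 11}, by decide, fun v r hr => ?_⟩
  by_cases h : r < 3
  · exact three v ⟨r, h⟩ hr
  · have := Finset.card_filter_le ({0, 5, 11} : Finset (Fin 18)) (fun u => D v u ≤ r)
    have h3 : ({0, 5, 11} : Finset (Fin 18)).card = 3 := by decide
    omega

theorem pack_le (M : Finset (Fin 18))
    (hM : ∀ v : Fin 18, ∀ r : ℕ, 1 ≤ r → (M.filter (fun u => D v u ≤ r)).card ≤ r) :
    M.card ≤ 3 := by
  by_contra hc
  have h4 : 4 ≤ M.card := by omega
  obtain ⟨N, hNM, hN⟩ := Finset.exists_subset_card_eq h4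
  let e := N.orderEmbOfFin hN
  have hmem : ∀ i, e i ∈ M := fun i => hNM (Finset.orderEmbOfFin_mem N hN i)
  obtain ⟨v, r, hr⟩ := four (e 0) (e 1) (e.strictMono (by decide)) (e 2) (e.strictMono (by decide))
    (e 3) (e.strictMono (by decide))
  have h1 := hM v (r.val + 1) (by omega)
  have h2 : ((Finset.univ : Finset (Fin 4)).filter (fun i => D v (e i) ≤ r.val + 1)).card ≤
      (M.filter (fun u => D v u ≤ r.val + 1)).card := by
    apply Finset.card_le_card_of_injOn e
    · intro i hi
      simp only [Finset.coe_filter, Finset.mem_univ, true_and, Set.mem_setOf_eq] at hi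
      simp only [Finset.coe_filter, Set.mem_setOf_eq]
      exact ⟨hmem i, hi⟩
    · exact e.injective.injOn
  rw [Finset.card_filter, Fin.sum_univ_four] at h2
  unfold ind at hr
  omega

theorem broadcast (f : Fin 18 → ℕ) (hf : ∀ u : Fin 18, ∃ v : Fin 18, 1 ≤ f v ∧ D u v ≤ f v) :
    5 ≤ ∑ v, f v := by
  have h1 : (Finset.univ : Finset (Fin 18)) ⊆ Finset.univ.biUnion
      (fun v => Finset.univ.filter (fun u : Fin 18 => 1 ≤ f v ∧ D u v ≤ f v)) := by
    intro u _
    obtain ⟨v, hv⟩ := hf u
    simp only [Finset.mem_biUnion, Finset.mem_univ, true_and, Finset.mem_filter]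
    exact ⟨v, hv⟩
  have h2 := Finset.card_le_card h1
  have h3 := Finset.card_biUnion_le (s := (Finset.univ : Finset (Fin 18)))
    (t := fun v => Finset.univ.filter (fun u : Fin 18 => 1 ≤ f v ∧ D u v ≤ f v))
  have h4 : ∑ v : Fin 18, (Finset.univ.filter (fun u : Fin 18 => 1 ≤ f v ∧ D u v ≤ f v)).card ≤
      ∑ v : Fin 18, 4 * f v := Finset.sum_le_sum (fun v _ => ball_le v (f v))
  rw [← Finset.mul_sum] at h4
  simp only [Finset.card_univ, Fintype.card_fin] at h2
  omega

end Pool.Agent.H109Z.Mobius
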