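import Mathlib

set_option autoImplicit false

/-! Regular measures on the torus that fail the trace inequality for Laplace eigenfunctions. -/

open MeasureTheory Set Metric
open scoped ENNReal

namespace Pool.Agent.H109Z.Trace

/-- Points of the circle close to a multiple of `1 / q`. -/
def A (δ : ℝ) (q : ℕ) : Set UnitAddCircle := (fun t => (q : ℤ) • t) ⁻¹' closedBall 0 δ

theorem measurable_A (δ : ℝ) (q : ℕ) : MeasurableSet (A δ q) :=
  (isClosed_closedBall.preimage (continuous_zsmul (q : ℤ))).measurableSet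

theorem vol_A {δ : ℝ} (h1 : δ ≤ 1 / 2) {q : ℕ} (hq : 1 ≤ q) :
    volume (A δ q) = ENNReal.ofReal (2 * δ) := by
  have h := (Measure.measurePreserving_zsmul (volume : Measure UnitAddCircle)
    (n := (q : ℤ)) (by omega)).measure_preimage
    (measurableSet_closedBall (x := (0 : UnitAddCircle)) (ε := δ)).nullMeasurableSet
  unfold A
  rw [h, AddCircle.volume_closedBall, min_eq_right (by linarith)]

theorem vol_A_ball {δ : ℝ} (h0 : 0 < δ) {q : ℕ} (hq : 1 ≤ q) (x : UnitAddCircle) {r : ℝ}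
    (hr : 0 < r) : volume (ball x r ∩ A δ q) ≤ ENNReal.ofReal ((2 * r + 3 / q) * (2 * δ)) := by
  obtain ⟨x0, rfl⟩ := QuotientAddGroup.mk_surjective x
  have hq0 : (0 : ℝ) < q := by exact_mod_cast hq
  rw [AddCircle.add_projection_respects_measure 1 (x0 - 1 / 2)
    (measurableSet_ball.inter (measurable_A δ q))]
  set J : Finset ℤ := Finset.Icc ⌊q * (x0 - r)⌋ ⌈q * (x0 + r)⌉ with hJ
  have hsub : QuotientAddGroup.mk ⁻¹' (ball (x0 : UnitAddCircle) r ∩ A δ q) ∩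
      Ioc (x0 - 1 / 2) (x0 - 1 / 2 + 1) ⊆ ⋃ j ∈ J, closedBall ((j : ℝ) / q) (δ / q) := by
    rintro s ⟨⟨h1, h2⟩, h3, h4⟩
    have a1 : |s - x0| < r := by
      have b1 : ‖((s - x0 : ℝ) : UnitAddCircle)‖ = |s - x0| := by
        rw [AddCircle.norm_coe_eq_abs_iff 1 one_ne_zero, abs_one, abs_le]
        constructor <;> linarith
      rw [← b1, AddCircle.coe_sub, ← dist_eq_norm]
      exact h1
    have a2 : |(q : ℝ) * s - round ((q : ℝ) * s)| ≤ δ := by
      have b2 : ‖(q : ℤ) • (s : UnitAddCircle)‖ ≤ δ := by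
        have := h2
        simp only [A, mem_preimage, mem_closedBall, dist_zero_right] at this
        exact this
      rw [← AddCircle.coe_zsmul, UnitAddCircle.norm_eq] at b2
      simpa using b2
    have a3 := abs_le.mp (abs_sub_round ((q : ℝ) * s))
    obtain ⟨a4, a5⟩ := abs_lt.mp a1
    simp only [mem_iUnion]
    refine ⟨round ((q : ℝ) * s), ?_, ?_⟩
    · rw [hJ, Finset.mem_Icc]
      constructor
      · have c1 := Int.floor_le ((q : ℝ) * (x0 - r))
        have c2 : (q : ℝ) * (x0 - r) < q * s := mul_lt_mul_of_pos_left (by linarith) hq0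
        have c3 : ((⌊(q : ℝ) * (x0 - r)⌋ : ℤ) : ℝ) < (round ((q : ℝ) * s) : ℝ) + 1 := by linarith
        have c4 : ⌊(q : ℝ) * (x0 - r)⌋ < round ((q : ℝ) * s) + 1 := by exact_mod_cast c3
        omega
      · have c1 := Int.le_ceil ((q : ℝ) * (x0 + r))
        have c2 : (q : ℝ) * s < q * (x0 + r) := mul_lt_mul_of_pos_left (by linarith) hq0
        have c3 : (round ((q : ℝ) * s) : ℝ) < ((⌈(q : ℝ) * (x0 + r)⌉ : ℤ) : ℝ) + 1 := by linarith
        have c4 : round ((q : ℝ) * s) < ⌈(q : ℝ) * (x0 + r)⌉ + 1 := by exact_mod_cast c3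
        omega
    · rw [mem_closedBall, Real.dist_eq]
      have : s - (round ((q : ℝ) * s) : ℝ) / q = ((q : ℝ) * s - round ((q : ℝ) * s)) / q := by
        field_simp
      rw [this, abs_div, abs_of_pos hq0]
      exact div_le_div_of_nonneg_right a2 hq0.le
  refine (measure_mono hsub).trans ((measure_biUnion_finset_le _ _).trans ?_)
  simp only [Real.volume_closedBall, Finset.sum_const, nsmul_eq_mul]
  have hcard : (J.card : ℝ) ≤ 2 * q * r + 3 := by
    have c1 := Int.sub_one_lt_floor ((q : ℝ) * (x0 - r))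
    have c2 := Int.ceil_lt_add_one ((q : ℝ) * (x0 + r))
    have c0 : ⌊(q : ℝ) * (x0 - r)⌋ ≤ ⌈(q : ℝ) * (x0 + r)⌉ + 1 := by
      have d1 := Int.floor_le ((q : ℝ) * (x0 - r))
      have d2 := Int.le_ceil ((q : ℝ) * (x0 + r))
      have d3 : (q : ℝ) * (x0 - r) ≤ q * (x0 + r) := mul_le_mul_of_nonneg_left (by linarith) hq0.le
      have d4 : ((⌊(q : ℝ) * (x0 - r)⌋ : ℤ) : ℝ) ≤ ((⌈(q : ℝ) * (x0 + r)⌉ : ℤ) : ℝ) := by linarith
      have d5 : ⌊(q : ℝ) * (x0 - r)⌋ ≤ ⌈(q : ℝ) * (x0 + r)⌉ := by exact_mod_cast d4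
      omega
    have c3 : (J.card : ℤ) = ⌈(q : ℝ) * (x0 + r)⌉ + 1 - ⌊(q : ℝ) * (x0 - r)⌋ := by
      rw [hJ]; exact Int.card_Icc_of_le _ _ c0
    have c4 : (J.card : ℝ) = (⌈(q : ℝ) * (x0 + r)⌉ : ℝ) + 1 - (⌊(q : ℝ) * (x0 - r)⌋ : ℝ) := by
      exact_mod_cast c3
    rw [c4]; linarith
  rw [← ENNReal.ofReal_natCast, ← ENNReal.ofReal_mul (Nat.cast_nonneg _)]
  apply ENNReal.ofReal_le_ofReal
  have : (2 * r + 3 / q) * (2 * δ) = (2 * q * r + 3) * (2 * (δ / q)) := by field_simp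
  rw [this]
  exact mul_le_mul_of_nonneg_right hcard (by positivity)

/-- Normalised Lebesgue measure on `A δ q`. -/
noncomputable def nu (δ : ℝ) (q : ℕ) : Measure UnitAddCircle :=
  (ENNReal.ofReal (2 * δ))⁻¹ • volume.restrict (A δ q)

theorem nu_prob {δ : ℝ} (h0 : 0 < δ) (h1 : δ ≤ 1 / 2) {q : ℕ} (hq : 1 ≤ q) :
    IsProbabilityMeasure (nu δ q) := by
  refine ⟨?_⟩
  unfold nu
  rw [Measure.smul_apply, Measure.restrict_apply_univ, vol_A h1 hq, smul_eq_mul]
  exact ENNReal.inv_mul_cancel (by simp; linarith) ENNReal.ofReal_ne_top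

theorem nu_ae (δ : ℝ) (q : ℕ) : ∀ᵐ t ∂(nu δ q), t ∈ A δ q :=
  Measure.ae_smul_measure (ae_restrict_mem (measurable_A δ q)) _

theorem nu_le {δ : ℝ} (h0 : 0 < δ) {q : ℕ} {S : Set UnitAddCircle} (hS : MeasurableSet S) {c : ℝ}
    (h : volume (S ∩ A δ q) ≤ ENNReal.ofReal (c * (2 * δ))) : nu δ q S ≤ ENNReal.ofReal c := by
  unfold nu
  rw [Measure.smul_apply, Measure.restrict_apply hS, smul_eq_mul]
  have h2 : (0 : ℝ) ≤ 2 * δ := by linarith
  rw [ENNReal.ofReal_mul' h2] at h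
  calc (ENNReal.ofReal (2 * δ))⁻¹ * volume (S ∩ A δ q)
      ≤ (ENNReal.ofReal (2 * δ))⁻¹ * (ENNReal.ofReal c * ENNReal.ofReal (2 * δ)) := by gcongr
    _ = ENNReal.ofReal c := by
      rw [mul_comm (ENNReal.ofReal c), ← mul_assoc,
        ENNReal.inv_mul_cancel (by simp; linarith) ENNReal.ofReal_ne_top, one_mul]

theorem nu_ball {δ θ : ℝ} (h0 : 0 < δ) (h1 : δ ≤ 1 / 2) (hθ0 : 0 < θ) (hθ1 : θ < 1) {q : ℕ}
    (hq : 1 ≤ q) (hδ : (1 / (q : ℝ)) ^ (1 - θ) ≤ δ) (x : UnitAddCircle) {r : ℝ} (hr : 0 < r) :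
    nu δ q (ball x r) ≤ ENNReal.ofReal (5 * r ^ θ) := by
  have hq0 : (0 : ℝ) < q := by exact_mod_cast hq
  have hp : 0 < r ^ θ := Real.rpow_pos_of_pos hr θ
  rcases le_total r (1 / q) with h | h
  · apply nu_le h0 measurableSet_ball
    refine (measure_mono (inter_subset_left.trans ball_subset_closedBall)).trans ?_
    rw [AddCircle.volume_closedBall]
    apply ENNReal.ofReal_le_ofReal
    refine (min_le_right _ _).trans ?_
    have a1 : r ^ (1 - θ) ≤ δ := (Real.rpow_le_rpow hr.le h (by linarith)).trans hδ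
    have a2 : r = r ^ θ * r ^ (1 - θ) := by
      rw [← Real.rpow_add hr]; simp
    have a3 : r ^ θ * r ^ (1 - θ) ≤ r ^ θ * δ := mul_le_mul_of_nonneg_left a1 hp.le
    have a4 : 0 < r ^ θ * δ := by positivity
    nlinarith
  · rcases le_total r 1 with h' | h'
    · refine (nu_le h0 measurableSet_ball (vol_A_ball h0 hq x hr)).trans ?_
      apply ENNReal.ofReal_le_ofReal
      have a1 : r ≤ r ^ θ := by
        have := Real.rpow_le_rpow_of_exponent_ge hr h' hθ1.le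
        rwa [Real.rpow_one] at this
      have a2 : 3 / (q : ℝ) = 3 * (1 / q) := by ring
      linarith
    · have := nu_prob h0 h1 hq
      refine prob_le_one.trans ?_
      rw [← ENNReal.ofReal_one]
      apply ENNReal.ofReal_le_ofReal
      have := Real.one_le_rpow h' hθ0.le
      linarith

/-- The product measure on the torus. -/
noncomputable def mu (d : ℕ) (δ : ℝ) (q : ℕ) : Measure (Fin d → UnitAddCircle) :=
  Measure.pi (fun _ => nu δ q)

theorem mu_prob (d : ℕ) {δ : ℝ} (h0 : 0 < δ) (h1 : δ ≤ 1 / 2) {q : ℕ} (hq : 1 ≤ q) :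
    IsProbabilityMeasure (mu d δ q) := by
  have := nu_prob h0 h1 hq
  unfold mu
  infer_instance

theorem mu_ball (d : ℕ) {δ θ : ℝ} (h0 : 0 < δ) (h1 : δ ≤ 1 / 2) (hθ0 : 0 < θ) (hθ1 : θ < 1) {q : ℕ}
    (hq : 1 ≤ q) (hδ : (1 / (q : ℝ)) ^ (1 - θ) ≤ δ) (x0 : Fin d → UnitAddCircle) {r : ℝ}
    (hr : 0 < r) : mu d δ q {x | Real.sqrt (∑ i, dist (x i) (x0 i) ^ 2) < r} ≤
      ENNReal.ofReal (5 ^ d * r ^ (θ * d)) := by
  have := nu_prob h0 h1 hq
  have hsub : {x : Fin d → UnitAddCircle | Real.sqrt (∑ i, dist (x i) (x0 i) ^ 2) < r} ⊆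
      univ.pi (fun i => ball (x0 i) r) := by
    intro x hx i _
    have hx' : Real.sqrt (∑ i, dist (x i) (x0 i) ^ 2) < r := hx
    show dist (x i) (x0 i) < r
    refine lt_of_le_of_lt ?_ hx'
    apply Real.le_sqrt_of_sq_le
    exact Finset.single_le_sum (f := fun i => dist (x i) (x0 i) ^ 2) (fun j _ => sq_nonneg _)
      (Finset.mem_univ i)
  refine (measure_mono hsub).trans ?_
  unfold mu
  rw [Measure.pi_pi]
  refine (Finset.prod_le_prod' (fun i _ => nu_ball h0 h1 hθ0 hθ1 hq hδ (x0 i) hr)).trans ?_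
  have hp : 0 < r ^ θ := Real.rpow_pos_of_pos hr θ
  rw [Finset.prod_const, Finset.card_univ, Fintype.card_fin, ← ENNReal.ofReal_pow (by positivity),
    mul_pow, Real.rpow_mul_natCast hr.le]

theorem mu_ae (d : ℕ) {δ : ℝ} (h0 : 0 < δ) (h1 : δ ≤ 1 / 2) {q : ℕ} (hq : 1 ≤ q) :
    ∀ᵐ x ∂(mu d δ q), ∀ i, x i ∈ A δ q := by
  have := nu_prob h0 h1 hq
  rw [ae_all_iff]
  intro i
  exact (measurePreserving_eval (fun _ : Fin d => nu δ q) i).quasiMeasurePreserving.ae (nu_ae δ q)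

theorem integral_mFourier {d : ℕ} (k : Fin d → ℤ) :
    ∫ x : Fin d → UnitAddCircle, UnitAddTorus.mFourier k x = if k = 0 then 1 else 0 := by
  split_ifs with h
  · subst h
    rw [UnitAddTorus.mFourier_zero]
    have : (volume : Measure (Fin d → UnitAddCircle)) univ = 1 := by
      rw [volume_pi, Measure.pi_univ]; simp
    simp [Measure.real, this]
  · rw [UnitAddTorus.mFourier, ContinuousMap.coe_mk, integral_fintype_prod_volume_eq_prod]
    obtain ⟨i, hi⟩ := Function.ne_iff.mp h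
    apply Finset.prod_eq_zero (Finset.mem_univ i)
    exact integral_eq_zero_of_add_right_eq_neg (fourier_add_half_inv_index hi one_pos)

theorem integrable_cont {d : ℕ} {E : Type} [NormedAddCommGroup E] {f : (Fin d → UnitAddCircle) → E}
    (hf : Continuous f) (μ : Measure (Fin d → UnitAddCircle)) [IsFiniteMeasure μ] :
    Integrable f μ :=
  hf.integrable_of_hasCompactSupport (HasCompactSupport.of_compactSpace f)

theorem l2_norm {d : ℕ} (S : Finset (Fin d → ℤ)) :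
    ∫ x : Fin d → UnitAddCircle, ‖∑ k ∈ S, (1 : ℂ) * UnitAddTorus.mFourier k x‖ ^ 2 = S.card := by
  have h1 : ∀ x : Fin d → UnitAddCircle,
      ((‖∑ k ∈ S, (1 : ℂ) * UnitAddTorus.mFourier k x‖ ^ 2 : ℝ) : ℂ) =
        ∑ k ∈ S, ∑ l ∈ S, UnitAddTorus.mFourier (k + -l) x := by
    intro x
    push_cast
    rw [← Complex.mul_conj', map_sum, Finset.sum_mul_sum]
    simp only [one_mul, UnitAddTorus.mFourier_add, UnitAddTorus.mFourier_neg]
  have h2 : ((∫ x : Fin d → UnitAddCircle,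
      ‖∑ k ∈ S, (1 : ℂ) * UnitAddTorus.mFourier k x‖ ^ 2 : ℝ) : ℂ) = S.card := by
    rw [← integral_complex_ofReal]
    simp only [h1]
    rw [integral_finset_sum _ (fun k _ => integrable_cont (by fun_prop) _)]
    have h3 : ∀ k ∈ S, ∫ x : Fin d → UnitAddCircle, ∑ l ∈ S, UnitAddTorus.mFourier (k + -l) x =
        1 := by
      intro k hk
      rw [integral_finset_sum _ (fun l _ => integrable_cont (by fun_prop) _)]
      simp only [integral_mFourier, add_neg_eq_zero]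
      rw [Finset.sum_ite_eq]
      simp [hk]
    rw [Finset.sum_congr rfl h3]
    simp
  exact_mod_cast h2

theorem mFourier_close {d L : ℕ} (hd : 1 ≤ d) (hL : 1 ≤ L) {q : ℕ} {k : Fin d → ℤ}
    (hk : ∀ i, |k i| ≤ L) {x : Fin d → UnitAddCircle}
    (hx : ∀ i, x i ∈ A (1 / (16 * d * L)) q) :
    ‖UnitAddTorus.mFourier ((q : ℤ) • k) x - 1‖ ≤ 1 / 2 := by
  have hs : ∀ i, ∃ s : ℝ, |s| ≤ 1 / (16 * d * L) ∧ (q : ℤ) • x i = (s : UnitAddCircle) := by
    intro i
    obtain ⟨y, hy⟩ := QuotientAddGroup.mk_surjective ((q : ℤ) • x i)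
    have h1 := hx i
    simp only [A, mem_preimage, mem_closedBall, dist_zero_right] at h1
    rw [← hy, UnitAddCircle.norm_eq] at h1
    refine ⟨y - round y, h1, ?_⟩
    rw [← hy, AddCircle.coe_sub]
    have : ((round y : ℝ) : UnitAddCircle) = 0 := by
      rw [AddCircle.coe_eq_zero_iff]; exact ⟨round y, by simp⟩
    rw [this, sub_zero]
  choose s hs1 hs2 using hs
  have h2 : UnitAddTorus.mFourier ((q : ℤ) • k) x =
      Complex.exp (Complex.I * ((2 * Real.pi * ∑ i, (k i : ℝ) * s i : ℝ) : ℂ)) := by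
    rw [UnitAddTorus.mFourier, ContinuousMap.coe_mk]
    have h3 : ∀ i, fourier (((q : ℤ) • k) i) (x i) =
        Complex.exp (Complex.I * ((2 * Real.pi * ((k i : ℝ) * s i) : ℝ) : ℂ)) := by
      intro i
      have h4 : fourier (((q : ℤ) • k) i) (x i) = fourier (k i) ((q : ℤ) • x i) := by
        rw [fourier_apply, fourier_apply, Pi.smul_apply, smul_smul, smul_eq_mul, mul_comm]
      rw [h4, hs2 i, fourier_coe_apply]
      congr 1
      push_cast
      ring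
    simp only [h3]
    rw [← Complex.exp_sum]
    congr 1
    push_cast
    rw [Finset.mul_sum, Finset.mul_sum]
  rw [h2]
  refine Real.norm_exp_I_mul_ofReal_sub_one_le.trans ?_
  have hd0 : (0 : ℝ) < d := by exact_mod_cast hd
  have hL0 : (0 : ℝ) < L := by exact_mod_cast hL
  have h5 : |∑ i, (k i : ℝ) * s i| ≤ 1 / 16 := by
    refine (Finset.abs_sum_le_sum_abs _ _).trans ?_
    have h6 : ∀ i ∈ (Finset.univ : Finset (Fin d)), |(k i : ℝ) * s i| ≤ L * (1 / (16 * d * L)) := by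
      intro i _
      rw [abs_mul]
      apply mul_le_mul _ (hs1 i) (abs_nonneg _) hL0.le
      exact_mod_cast hk i
    refine (Finset.sum_le_sum h6).trans ?_
    rw [Finset.sum_const, Finset.card_univ, Fintype.card_fin, nsmul_eq_mul]
    apply le_of_eq
    field_simp
  rw [Real.norm_eq_abs, abs_mul, abs_of_pos (by positivity : (0 : ℝ) < 2 * Real.pi)]
  have := Real.pi_lt_four
  have h7 := abs_nonneg (∑ i, (k i : ℝ) * s i)
  nlinarith

theorem many_points {d : ℕ} (hd : 3 ≤ d) (N : ℕ) : ∃ (L m : ℕ) (S : Finset (Fin d → ℤ)), 1 ≤ L ∧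
    N < S.card ∧ ∀ k ∈ S, (∀ i, |k i| ≤ L) ∧ ∑ i, k i ^ 2 = m := by
  set L : ℕ := (d + 1) * N + 1 with hL
  have hmaps : ∀ k ∈ Fintype.piFinset (fun _ : Fin d => Finset.Ico (0 : ℤ) L),
      (∑ i, k i ^ 2).toNat ∈ Finset.range (d * L ^ 2 + 1) := by
    intro k hk
    rw [Fintype.mem_piFinset] at hk
    have h1 : ∑ i, k i ^ 2 ≤ ∑ _i : Fin d, ((L : ℤ)) ^ 2 := by
      apply Finset.sum_le_sum
      intro i _
      have := Finset.mem_Ico.mp (hk i)
      nlinarith [this.1, this.2]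
    rw [Finset.sum_const, Finset.card_univ, Fintype.card_fin, nsmul_eq_mul] at h1
    rw [Finset.mem_range, Nat.lt_succ_iff, Int.toNat_le]
    exact_mod_cast h1
  have hcard : (Finset.range (d * L ^ 2 + 1)).card * N <
      (Fintype.piFinset (fun _ : Fin d => Finset.Ico (0 : ℤ) L)).card := by
    rw [Finset.card_range, Fintype.card_piFinset]
    simp only [Int.card_Ico, sub_zero, Int.toNat_natCast, Finset.prod_const, Finset.card_univ,
      Fintype.card_fin]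
    have hL1 : 1 ≤ L := by omega
    have h1 : L ^ 3 ≤ L ^ d := Nat.pow_le_pow_right hL1 hd
    have h2 : 1 ≤ L ^ 2 := Nat.one_le_pow _ _ hL1
    have h3 : (d * L ^ 2 + 1) * N ≤ (d + 1) * N * L ^ 2 := by nlinarith
    have h4 : (d + 1) * N * L ^ 2 < L * L ^ 2 := Nat.mul_lt_mul_of_pos_right (by omega) h2
    have h5 : L * L ^ 2 = L ^ 3 := by ring
    omega
  obtain ⟨m, -, hm⟩ := Finset.exists_lt_card_fiber_of_mul_lt_card_of_maps_to hmaps hcard
  refine ⟨L, m, _, by omega, hm, fun k hk => ?_⟩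
  rw [Finset.mem_filter, Fintype.mem_piFinset] at hk
  refine ⟨fun i => ?_, ?_⟩
  · have := Finset.mem_Ico.mp (hk.1 i)
    rw [abs_le]; constructor <;> linarith [this.1, this.2]
  · rw [← hk.2, Int.toNat_of_nonneg (Finset.sum_nonneg (fun i _ => sq_nonneg _))]

theorem exists_q {δ θ : ℝ} (h0 : 0 < δ) (hθ1 : θ < 1) :
    ∃ q : ℕ, 1 ≤ q ∧ (1 / (q : ℝ)) ^ (1 - θ) ≤ δ := by
  have h1 : 0 < δ ^ (1 / (1 - θ)) := Real.rpow_pos_of_pos h0 _
  obtain ⟨n, hn⟩ := exists_nat_one_div_lt h1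
  refine ⟨n + 1, by omega, ?_⟩
  have h2 : (1 / ((n + 1 : ℕ) : ℝ)) ^ (1 - θ) ≤ (δ ^ (1 / (1 - θ))) ^ (1 - θ) := by
    apply Real.rpow_le_rpow (by positivity) _ (by linarith)
    push_cast
    exact hn.le
  rw [← Real.rpow_mul h0.le, one_div_mul_cancel (by linarith), Real.rpow_one] at h2
  exact h2

/-- One building block: a uniformly regular probability measure with a large trace ratio. -/
theorem block {d : ℕ} (hd : 3 ≤ d) {θ : ℝ} (hθ0 : 0 < θ) (hθ1 : θ < 1) (N : ℕ) :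
    ∃ μ : Measure (Fin d → UnitAddCircle), IsProbabilityMeasure μ ∧
      (∀ (x0 : Fin d → UnitAddCircle) (r : ℝ), 0 < r →
        μ {x | Real.sqrt (∑ i, dist (x i) (x0 i) ^ 2) < r} ≤
          ENNReal.ofReal (5 ^ d * r ^ (θ * d))) ∧
      ∃ (n : ℕ) (S : Finset (Fin d → ℤ)), (∀ k ∈ S, ∑ i, k i ^ 2 = n) ∧ N < S.card ∧
        ((S.card : ℝ) / 2) ^ 2 ≤ ∫ x, ‖∑ k ∈ S, (1 : ℂ) * UnitAddTorus.mFourier k x‖ ^ 2 ∂μ := by
  obtain ⟨L, m, S, hL, hN, hS⟩ := many_points hd N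
  have hd0 : (3 : ℝ) ≤ d := by exact_mod_cast hd
  have hL0 : (1 : ℝ) ≤ L := by exact_mod_cast hL
  have h0 : (0 : ℝ) < 1 / (16 * d * L) := by positivity
  have h1 : (1 : ℝ) / (16 * d * L) ≤ 1 / 2 := by
    apply one_div_le_one_div_of_le (by norm_num)
    nlinarith
  obtain ⟨q, hq, hδ⟩ := exists_q h0 hθ1
  have := mu_prob d h0 h1 hq
  have hinj : Function.Injective (fun k : Fin d → ℤ => (q : ℤ) • k) :=
    smul_right_injective _ (by omega)
  refine ⟨mu d _ q, this, fun x0 r hr => mu_ball d h0 h1 hθ0 hθ1 hq hδ x0 hr, q ^ 2 * m,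
    S.image (fun k => (q : ℤ) • k), ?_, ?_, ?_⟩
  · intro k hk
    obtain ⟨l, hl, rfl⟩ := Finset.mem_image.mp hk
    simp only [Pi.smul_apply, smul_eq_mul, mul_pow]
    rw [← Finset.mul_sum, (hS l hl).2]
    push_cast; ring
  · rwa [Finset.card_image_of_injective _ hinj]
  · rw [Finset.card_image_of_injective _ hinj]
    have h2 : ∫ _x, ((S.card : ℝ) / 2) ^ 2 ∂(mu d (1 / (16 * d * L)) q) = ((S.card : ℝ) / 2) ^ 2 := by
      rw [integral_const, probReal_univ, one_smul]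
    rw [← h2]
    apply integral_mono_ae (integrable_const _) (integrable_cont (by fun_prop) _)
    filter_upwards [mu_ae d h0 h1 hq] with x hx
    apply pow_le_pow_left₀ (by positivity)
    rw [Finset.sum_image (fun a _ b _ h => hinj h)]
    have h3 : ‖∑ k ∈ S, (1 : ℂ) * UnitAddTorus.mFourier ((q : ℤ) • k) x - (S.card : ℂ)‖ ≤
        S.card / 2 := by
      have h4 : (S.card : ℂ) = ∑ _k ∈ S, (1 : ℂ) := by simp
      rw [h4, ← Finset.sum_sub_distrib]
      refine (norm_sum_le _ _).trans ?_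
      have h5 : ∀ k ∈ S, ‖(1 : ℂ) * UnitAddTorus.mFourier ((q : ℤ) • k) x - 1‖ ≤ 1 / 2 := by
        intro k hk
        rw [one_mul]
        exact mFourier_close (by omega) hL (hS k hk).1 hx
      refine (Finset.sum_le_sum h5).trans ?_
      rw [Finset.sum_const, nsmul_eq_mul]
      linarith
    have h6 := norm_sub_norm_le (S.card : ℂ)
      (∑ k ∈ S, (1 : ℂ) * UnitAddTorus.mFourier ((q : ℤ) • k) x)
    rw [norm_sub_rev] at h6
    simp only [Complex.norm_natCast] at h6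
    linarith

theorem main (d : ℕ) (hd : 3 ≤ d) (ε : ℝ) (h0 : 0 < ε) (h2 : ε < 2) :
    ∃ μ : Measure (Fin d → UnitAddCircle), IsProbabilityMeasure μ ∧
      (∃ C : ℝ, ∀ (x0 : Fin d → UnitAddCircle) (r : ℝ), 0 < r →
        μ {x | Real.sqrt (∑ i, dist (x i) (x0 i) ^ 2) < r} ≤
          ENNReal.ofReal (C * r ^ ((d : ℝ) - 2 + ε))) ∧
      ∀ C : ℝ, ∃ (n : ℕ) (S : Finset (Fin d → ℤ)) (a : (Fin d → ℤ) → ℂ),
        (∀ k ∈ S, ∑ i, k i ^ 2 = n) ∧
        C * ∫ x, ‖∑ k ∈ S, a k * UnitAddTorus.mFourier k x‖ ^ 2 <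
          ∫ x, ‖∑ k ∈ S, a k * UnitAddTorus.mFourier k x‖ ^ 2 ∂μ := by
  have hd0 : (3 : ℝ) ≤ d := by exact_mod_cast hd
  have hθ0 : 0 < ((d : ℝ) - 2 + ε) / d := div_pos (by linarith) (by linarith)
  have hθ1 : ((d : ℝ) - 2 + ε) / d < 1 := by rw [div_lt_one (by linarith)]; linarith
  have hθ : ((d : ℝ) - 2 + ε) / d * d = (d : ℝ) - 2 + ε := by field_simp
  choose μ hμ1 hμ2 n S hS1 hS2 hS3 using fun j : ℕ => block hd hθ0 hθ1 (2 ^ (j + 3) * j)
  rw [hθ] at hμ2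
  have hsum : ∑' j : ℕ, (2⁻¹ : ℝ≥0∞) ^ (j + 1) = 1 := ENNReal.tsum_geometric_add_one 2⁻¹ ▸ by
    rw [ENNReal.one_sub_inv_two, inv_inv, ENNReal.inv_mul_cancel] <;> simp
  have hprob : IsProbabilityMeasure (Measure.sum (fun j : ℕ => (2⁻¹ : ℝ≥0∞) ^ (j + 1) • μ j)) := by
    refine ⟨?_⟩
    rw [Measure.sum_apply _ MeasurableSet.univ]
    simp only [Measure.smul_apply, measure_univ, smul_eq_mul, mul_one]
    exact hsum
  refine ⟨Measure.sum (fun j : ℕ => (2⁻¹ : ℝ≥0∞) ^ (j + 1) • μ j), hprob, ⟨5 ^ d, ?_⟩, ?_⟩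
  · intro x0 r hr
    have hm : MeasurableSet {x : Fin d → UnitAddCircle |
        Real.sqrt (∑ i, dist (x i) (x0 i) ^ 2) < r} :=
      (isOpen_lt (by fun_prop) continuous_const).measurableSet
    rw [Measure.sum_apply _ hm]
    simp only [Measure.smul_apply, smul_eq_mul]
    calc ∑' j : ℕ, (2⁻¹ : ℝ≥0∞) ^ (j + 1) * μ j {x | Real.sqrt (∑ i, dist (x i) (x0 i) ^ 2) < r}
        ≤ ∑' j : ℕ, (2⁻¹ : ℝ≥0∞) ^ (j + 1) * ENNReal.ofReal (5 ^ d * r ^ ((d : ℝ) - 2 + ε)) :=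
          ENNReal.tsum_le_tsum (fun j => by gcongr; exact hμ2 j x0 r hr)
      _ = _ := by rw [ENNReal.tsum_mul_right, hsum, one_mul]
  · intro C
    obtain ⟨j, hj⟩ := exists_nat_ge C
    refine ⟨n j, S j, fun _ => 1, hS1 j, ?_⟩
    rw [l2_norm]
    have h3 := integral_mono_measure
      (Measure.le_sum (fun j : ℕ => (2⁻¹ : ℝ≥0∞) ^ (j + 1) • μ j) j)
      (f := fun x => ‖∑ k ∈ S j, (1 : ℂ) * UnitAddTorus.mFourier k x‖ ^ 2)
      (Filter.Eventually.of_forall (fun x => by positivity)) (integrable_cont (by fun_prop) _)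
    refine lt_of_lt_of_le ?_ h3
    rw [integral_smul_measure, smul_eq_mul]
    have h4 : ((2⁻¹ : ℝ≥0∞) ^ (j + 1)).toReal = (2 ^ (j + 1))⁻¹ := by simp
    rw [h4]
    have h5 : ((2 : ℝ) ^ (j + 3) * j) < (S j).card := by exact_mod_cast hS2 j
    have h6 : (0 : ℝ) < 2 ^ (j + 1) := by positivity
    have h7 : (0 : ℝ) < (S j).card := lt_of_le_of_lt (by positivity) h5
    refine lt_of_lt_of_le ?_ (mul_le_mul_of_nonneg_left (hS3 j) (by positivity))
    rw [← div_eq_inv_mul, lt_div_iff₀ h6]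
    have h8 : (2 : ℝ) ^ (j + 3) = 4 * 2 ^ (j + 1) := by ring
    rw [h8] at h5
    have h9 : C * 2 ^ (j + 1) ≤ j * 2 ^ (j + 1) := mul_le_mul_of_nonneg_right hj h6.le
    nlinarith

end Pool.Agent.H109Z.Trace
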